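import Mathlib
import Pool.Agent.H.MP_13da68_co.Defs
import Pool.Agent.H.MP_13da68_co.Count

set_option autoImplicit false

namespace Pool.Agent.Results.MP_13da68_co.Triang

open Filter Asymptotics Pool.Agent.H.MP_13da68_co

lemma ev (K : ℕ) : ∀ᶠ s : ℕ in atTop, 2 * (3 * s - 1) ^ K * 8 ^ s ≤ 9 ^ s := by
  have h := tendsto_pow_const_mul_const_pow_of_abs_lt_one K (r := 8 / 9) (by norm_num [abs_lt])
  filter_upwards [h.eventually (gt_mem_nhds (show (0 : ℝ) < 1 / (2 * 3 ^ K) by positivity))]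
    with s hs
  refine le_trans (b := 2 * (3 * s) ^ K * 8 ^ s) (by gcongr; omega) ?_
  rw [div_pow, lt_div_iff₀ (by positivity), mul_div_assoc', div_mul_eq_mul_div,
    div_lt_one (by positivity)] at hs
  have : (2 * (3 * s) ^ K * 8 ^ s : ℝ) ≤ 9 ^ s := by
    rw [mul_pow]; linarith
  exact_mod_cast this

lemma part1 (d : ℕ) (hd : 1 ≤ d) : ∀ᶠ s : ℕ in atTop,
    (3 * s - 1) ^ d.choose 2 * 3 ^ (s * (3 * s) ^ (d - 1)) ≤ 2 * t (3 * s) d := by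
  obtain ⟨m, rfl⟩ : ∃ m, d = m + 1 := ⟨d - 1, by omega⟩
  filter_upwards [ev ((m + 1).choose 2), eventually_gt_atTop 0] with s h hs using count hs h

lemma part2 (d : ℕ) (hd : 1 ≤ d) (C : ℝ) (h : (fun n : ℕ => (t n d : ℝ)) =O[atTop]
    fun n : ℕ => (n : ℝ) ^ C * ((3 : ℝ) ^ (1 / 3 : ℝ)) ^ (n ^ d)) : (d.choose 2 : ℝ) ≤ C := by
  by_contra hC
  obtain ⟨M, hM⟩ := h.bound
  have t3 : Tendsto (fun s : ℕ => 3 * s) atTop atTop :=
    tendsto_atTop_mono (fun s => by simp only [id]; omega) tendsto_id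
  have t4 := ((tendsto_rpow_atTop (sub_pos.2 (not_le.1 hC))).comp
    (tendsto_natCast_atTop_atTop.comp t3)).eventually_gt_atTop (2 ^ d.choose 2 * (2 * M))
  obtain ⟨s, h1, h2, h3, h4⟩ :=
    ((t3.eventually hM).and ((part1 d hd).and (t4.and (eventually_gt_atTop 0)))).exists
  have e : ((3 : ℝ) ^ (1 / 3 : ℝ)) ^ ((3 * s) ^ d) = 3 ^ (s * (3 * s) ^ (d - 1)) := by
    obtain ⟨m, rfl⟩ : ∃ m, d = m + 1 := ⟨d - 1, by omega⟩
    rw [Nat.add_sub_cancel, show (3 * s) ^ (m + 1) = 3 * (s * (3 * s) ^ m) by ring, pow_mul,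
      ← Real.rpow_natCast _ 3, ← Real.rpow_mul (by norm_num)]
    norm_num
  have p : (0 : ℝ) < ((3 * s : ℕ) : ℝ) := by positivity
  rw [e, Real.norm_natCast, Real.norm_of_nonneg (by positivity)] at h1
  simp only [Function.comp] at h3
  rw [Real.rpow_sub p, Real.rpow_natCast, lt_div_iff₀ (by positivity)] at h3
  have h5 : (3 * s) ^ d.choose 2 ≤ 2 ^ d.choose 2 * (3 * s - 1) ^ d.choose 2 := by
    rw [← mul_pow]
    exact Nat.pow_le_pow_left (by omega) _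
  have h6 := (Nat.mul_le_mul_right (3 ^ (s * (3 * s) ^ (d - 1))) h5).trans
    ((mul_assoc _ _ _).trans_le (Nat.mul_le_mul_left _ h2))
  have h7 : ((3 * s : ℕ) : ℝ) ^ d.choose 2 * 3 ^ (s * (3 * s) ^ (d - 1)) ≤
      2 ^ d.choose 2 * (2 * t (3 * s) d) := by exact_mod_cast h6
  have q : (0 : ℝ) < 3 ^ (s * (3 * s) ^ (d - 1)) := by positivity
  have r : (0 : ℝ) < 2 ^ d.choose 2 := by positivity
  nlinarith [mul_lt_mul_of_pos_right h3 q, mul_le_mul_of_nonneg_left h1 r.le]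

lemma part3 (d : ℕ) (hd : 3 ≤ d) : ¬ (fun n : ℕ => (t n d : ℝ)) =O[atTop]
    fun n : ℕ => (n : ℝ) ^ (d - 1) * ((3 : ℝ) ^ (1 / 3 : ℝ)) ^ (n ^ d) := fun h => by
  have h1 := part2 d (by omega) ((d - 1 : ℕ) : ℝ) (by simpa only [Real.rpow_natCast] using h)
  obtain ⟨m, rfl⟩ : ∃ m, d = m + 3 := ⟨d - 3, by omega⟩
  have h2 : (m + 3).choose 2 ≤ m + 2 := by exact_mod_cast h1
  rw [Nat.choose_succ_succ' (m + 2) 1, Nat.choose_one_right] at h2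
  have := Nat.choose_pos (show 1 + 1 ≤ m + 2 by omega)
  omega

theorem result :
    (∀ d : ℕ, 1 ≤ d → ∀ᶠ s : ℕ in atTop,
      (3 * s - 1) ^ d.choose 2 * 3 ^ (s * (3 * s) ^ (d - 1)) ≤ 2 * t (3 * s) d) ∧
    (∀ d : ℕ, 1 ≤ d → ∀ C : ℝ, ((fun n : ℕ => (t n d : ℝ)) =O[atTop]
      fun n : ℕ => (n : ℝ) ^ C * ((3 : ℝ) ^ (1 / 3 : ℝ)) ^ (n ^ d)) → (d.choose 2 : ℝ) ≤ C) ∧
    (∀ d : ℕ, 3 ≤ d → ¬ (fun n : ℕ => (t n d : ℝ)) =O[atTop]
      fun n : ℕ => (n : ℝ) ^ (d - 1) * ((3 : ℝ) ^ (1 / 3 : ℝ)) ^ (n ^ d)) ∧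
    ¬ ∀ d : ℕ, 1 ≤ d → (fun n : ℕ => (t n d : ℝ)) =O[atTop]
      fun n : ℕ => (n : ℝ) ^ (d - 1) * ((3 : ℝ) ^ (1 / 3 : ℝ)) ^ (n ^ d) :=
  ⟨part1, part2, part3, fun h => part3 3 le_rfl (h 3 (by omega))⟩

end Pool.Agent.Results.MP_13da68_co.Triang
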